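import Pool.Agent.Y839.LP.Part

set_option autoImplicit false

/-!
# Simultaneous partitions of `ℵ₁`-large sets

Let `G` be an infinite group.  The starting result `AlephOne` gives a partition of `G` into `|G|` cells
each of which is `ℵ₁`-large.  We prove much more: the sets which are to be divided may be prescribed, and
there may be `|G|` of them.  Given infinite left `ℵ₁`-large sets `X j` and infinite right `ℵ₁`-large sets
`Y j`, where `j` runs through at most `|G|` indices, there is a partition of `G` into `|G|` cells such
that every cell is left and right `ℵ₁`-large and meets every `X j` in an infinite left `ℵ₁`-large set and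
every `Y j` in an infinite right `ℵ₁`-large set.  (If `G` is uncountable then `ℵ₁`-large sets are
infinite; in a countable group all nonempty sets are `ℵ₁`-large, and the sets must be infinite.)

Proof for uncountable `G`.  Every `X j` has infinitely many elements in each right coset of some countable
subgroup `C j`.  By recursion one chooses `h j` outside the subgroup `H j` generated by all `C i`, `i ≤ j`,
and all `h i`, `i < j`.  For a fixed well-ordering of `G` the least elements of the cosets `H j x` decrease
with `j`, so the set of the `j` with different least elements of `H j x` and of `⟨H j, h j⟩ x` is finite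
for every `x`.  The cosets `C j x` with `j` in this set meet `X j` in countable infinite blocks; every
element of `G` is in finitely many blocks, and every set which meets all the blocks of `j` is left
`ℵ₁`-large, with the countable subgroup generated by `C j` and `h j`.  The same is done for right
translates.  The blocks fall into countable components, so they have pairwise disjoint infinite subsets.
-/

namespace Pool.Agent.Results.MP_e349a0_al.SimultaneousPartitions

open scoped Pointwise Cardinal

universe u

/-- `A` is left `ℵ₁`-large: `G = F A` for some `F ⊆ G` with `|F| < ℵ₁` -/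
def LeftLarge {G : Type u} [Group G] (A : Set G) : Prop :=
  ∃ F : Set G, #F < Cardinal.aleph 1 ∧ F * A = Set.univ

/-- `A` is right `ℵ₁`-large: `G = A F` for some `F ⊆ G` with `|F| < ℵ₁` -/
def RightLarge {G : Type u} [Group G] (A : Set G) : Prop :=
  ∃ F : Set G, #F < Cardinal.aleph 1 ∧ A * F = Set.univ

/-- Let `G` be an infinite group, and let `X j` and `Y j` be at most `|G|` infinite subsets, the `X j`
left `ℵ₁`-large and the `Y j` right `ℵ₁`-large.  There is a partition of `G` into `|G|` cells such that
every cell `A` is left and right `ℵ₁`-large, and for all `j` the set `A ∩ X j` is infinite and left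
`ℵ₁`-large and the set `A ∩ Y j` is infinite and right `ℵ₁`-large. -/
theorem result (G : Type u) [Group G] [Infinite G] (J : Type u) (hJ : #J ≤ #G) (X Y : J → Set G)
    (hX : ∀ j, (X j).Infinite ∧ LeftLarge (X j)) (hY : ∀ j, (Y j).Infinite ∧ RightLarge (Y j)) :
    ∃ P : Set (Set G), Setoid.IsPartition P ∧ #P = #G ∧ ∀ A ∈ P,
      LeftLarge A ∧ RightLarge A ∧
      ∀ j, (A ∩ X j).Infinite ∧ LeftLarge (A ∩ X j) ∧ (A ∩ Y j).Infinite ∧
        RightLarge (A ∩ Y j) := by
  have hl : ∀ A : Set G, LeftLarge A ↔ Pool.Agent.Y839.LP.LLg A := fun A => exists_congr fun F =>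
    and_congr_left fun _ => (Cardinal.countable_iff_lt_aleph_one F).symm
  have hr : ∀ A : Set G, RightLarge A ↔ Pool.Agent.Y839.LP.RLg A := fun A => exists_congr fun F =>
    and_congr_left fun _ => (Cardinal.countable_iff_lt_aleph_one F).symm
  obtain ⟨P, h1, h2, h3⟩ := Pool.Agent.Y839.LP.main hJ hJ X Y
    (fun j => ⟨(hX j).1, (hl _).1 (hX j).2⟩) (fun j => ⟨(hY j).1, (hr _).1 (hY j).2⟩)
  refine ⟨P, h1, h2, fun A hA => ?_⟩
  obtain ⟨⟨h4, h5⟩, h6, h7⟩ := h3 A hA
  exact ⟨(hl A).2 h4, (hr A).2 h5, fun j => ⟨(h6 j).1, (hl _).2 (h6 j).2, (h7 j).1,
    (hr _).2 (h7 j).2⟩⟩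

end Pool.Agent.Results.MP_e349a0_al.SimultaneousPartitions
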